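import Pool.Agent.Q40.OD.Stm2

/-! Project OD (helper40), job OD-30: smooth hypersurfaces modulo `p`. -/

set_option autoImplicit false
set_option linter.unusedSectionVars false
set_option linter.unusedVariables false

namespace Pool.Agent.Q272.OD

open Pool.Agent.Q40.OD Pool.Agent.TH214.RM Pool.Agent.H918R2.Quad MvPolynomial

/-- Every homogeneous polynomial is `form` of its coefficients. -/
theorem form_coeff {R : Type} [CommRing R] {n d : ℕ} (G : MvPolynomial (Fin (n + 2)) R)
    (hG : G.IsHomogeneous d) : form n d (fun α : Ix n d => coeff α.1 G) = G := by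
  classical
  ext β
  unfold form
  rw [coeff_sum]
  simp only [coeff_monomial]
  by_cases hβ : β.degree = d
  · rw [Finset.sum_eq_single (⟨β, hβ⟩ : Ix n d)]
    · simp
    · intro b _ hb
      rw [if_neg]
      intro h
      exact hb (Subtype.ext h)
    · intro h
      exact absurd (Finset.mem_univ _) h
  · rw [hG.coeff_eq_zero hβ]
    refine Finset.sum_eq_zero fun b _ => ?_
    rw [if_neg]
    intro h
    apply hβ
    rw [← h]
    exact b.2

theorem form_homog {R : Type} [CommRing R] {n d : ℕ} (c : Ix n d → R) :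
    (form n d c).IsHomogeneous d := by
  unfold form
  refine IsHomogeneous.sum _ _ _ fun α _ => ?_
  exact isHomogeneous_monomial _ α.2

theorem deh_mul {O ι : Type} [CommRing O] [DecidableEq ι] (s : ι) (P Q : MvPolynomial ι O) :
    deh s (P * Q) = deh s P * deh s Q := map_mul _ _ _

theorem deh_add {O ι : Type} [CommRing O] [DecidableEq ι] (s : ι) (P Q : MvPolynomial ι O) :
    deh s (P + Q) = deh s P + deh s Q := map_add _ _ _

theorem deh_pow {O ι : Type} [CommRing O] [DecidableEq ι] (s : ι) (P : MvPolynomial ι O) (k : ℕ) :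
    deh s (P ^ k) = deh s P ^ k := map_pow _ _ _

theorem deh_sum {O ι κ : Type} [CommRing O] [DecidableEq ι] (s : ι) (P : κ → MvPolynomial ι O)
    (t : Finset κ) : deh s (∑ i ∈ t, P i) = ∑ i ∈ t, deh s (P i) := map_sum _ _ _

theorem deh_Xs {O ι : Type} [CommRing O] [DecidableEq ι] (s : ι) :
    deh s (X s : MvPolynomial ι O) = 1 := by
  unfold deh
  rw [aeval_X]
  unfold tau
  rw [dif_pos rfl]

theorem deh_natCast {O ι : Type} [CommRing O] [DecidableEq ι] (s : ι) (m : ℕ) :
    deh s ((m : MvPolynomial ι O)) = (m : MvPolynomial {j : ι // j ≠ s} O) := map_natCast _ _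

theorem s_ek8 : S_EK8 := by
  classical
  intro n d hd p hp
  by_cases hpd : p ∣ d
  · -- the second form
    let G : MvPolynomial (Fin (n + 2)) ℤ :=
      X 0 ^ d + ∑ i : Fin (n + 1), X i.castSucc * X i.succ ^ (d - 1)
    have hG : G.IsHomogeneous d := by
      refine IsHomogeneous.add (isHomogeneous_X_pow _ _) ?_
      refine IsHomogeneous.sum _ _ _ fun i _ => ?_
      have h1 := (isHomogeneous_X ℤ i.castSucc).mul (isHomogeneous_X_pow (R := ℤ) i.succ (d - 1))
      have h2 : 1 + (d - 1) = d := by omega
      rwa [h2] at h1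
    refine ⟨fun α => coeff α.1 G, ?_⟩
    rw [form_coeff G hG]
    intro s Q hQ hC hGQ
    by_contra hcon
    push Not at hcon
    have hall := all_pderiv_mem G d hG s Q hGQ hcon
    have hdQ : (d : MvPolynomial {j : Fin (n + 2) // j ≠ s} ℤ) ∈ Q := by
      have h1 := (hC (d : ℤ)).2 (Ideal.mem_span_singleton.2 (by exact_mod_cast hpd))
      simpa using h1
    have hkey : ∀ m : ℕ, ∀ i₀ : Fin (n + 1), i₀.val = m →
        deh s (X i₀.succ : MvPolynomial (Fin (n + 2)) ℤ) ∈ Q := by
      intro m
      induction m using Nat.strong_induction_on with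
      | _ m ih =>
      intro i₀ hi₀
      have h1 := hall i₀.castSucc
      have h2 : pderiv i₀.castSucc G = pderiv i₀.castSucc (X 0 ^ d) +
          ∑ i : Fin (n + 1), (pderiv i₀.castSucc (X i.castSucc) * X i.succ ^ (d - 1) +
            X i.castSucc * pderiv i₀.castSucc (X i.succ ^ (d - 1))) := by
        simp only [G, map_add, map_sum]
        congr 1
        refine Finset.sum_congr rfl fun i _ => ?_
        rw [Derivation.leibniz]
        simp only [smul_eq_mul]
        ring
      rw [h2, deh_add, deh_sum] at h1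
      simp only [deh_add, deh_mul] at h1
      rw [Finset.sum_add_distrib] at h1
      have h3 : deh s (pderiv i₀.castSucc ((X 0 : MvPolynomial (Fin (n + 2)) ℤ) ^ d)) ∈ Q := by
        rw [pderiv_pow, deh_mul, deh_mul, deh_natCast]
        exact Ideal.mul_mem_right _ _ (Ideal.mul_mem_right _ _ hdQ)
      have h4 : ∑ i : Fin (n + 1), deh s (X i.castSucc : MvPolynomial (Fin (n + 2)) ℤ) *
          deh s (pderiv i₀.castSucc ((X i.succ : MvPolynomial (Fin (n + 2)) ℤ) ^ (d - 1))) ∈ Q := by
        refine Ideal.sum_mem _ fun i _ => Ideal.mul_mem_left _ _ ?_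
        rw [pderiv_pow, deh_mul, deh_mul]
        by_cases hii : i.succ = i₀.castSucc
        · have h5 : i.val < m := by
            have h6 := congrArg Fin.val hii
            simp at h6
            omega
          have h7 := ih i.val h5 i rfl
          refine Ideal.mul_mem_right _ _ (Ideal.mul_mem_left _ _ ?_)
          rw [deh_pow]
          exact Ideal.pow_mem_of_mem _ h7 _ (by omega)
        · rw [pderiv_X_of_ne hii]
          have : deh s (0 : MvPolynomial (Fin (n + 2)) ℤ) = 0 := map_zero _
          rw [this, mul_zero]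
          exact Ideal.zero_mem _
      have h5 : ∑ i : Fin (n + 1), deh s (pderiv i₀.castSucc
          (X i.castSucc : MvPolynomial (Fin (n + 2)) ℤ)) *
          deh s ((X i.succ : MvPolynomial (Fin (n + 2)) ℤ) ^ (d - 1)) =
          deh s (X i₀.succ : MvPolynomial (Fin (n + 2)) ℤ) ^ (d - 1) := by
        rw [Finset.sum_eq_single i₀]
        · rw [pderiv_X_self]
          have : deh s (1 : MvPolynomial (Fin (n + 2)) ℤ) = 1 := map_one _
          rw [this, one_mul, deh_pow]
        · intro b _ hb
          rw [pderiv_X_of_ne]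
          · have : deh s (0 : MvPolynomial (Fin (n + 2)) ℤ) = 0 := map_zero _
            rw [this, zero_mul]
          · intro h
            exact hb (Fin.castSucc_injective _ h)
        · intro h
          exact absurd (Finset.mem_univ _) h
      rw [h5] at h1
      have h6 : deh s (X i₀.succ : MvPolynomial (Fin (n + 2)) ℤ) ^ (d - 1) ∈ Q := by
        have h7 := (Ideal.add_mem_iff_right _ h3).1 h1
        exact (Ideal.add_mem_iff_left _ h4).1 h7
      exact hQ.mem_of_pow_mem _ h6
    have hx : ∀ j : Fin (n + 2), deh s (X j : MvPolynomial (Fin (n + 2)) ℤ) ∈ Q := by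
      intro j
      refine Fin.cases ?_ (fun i => hkey i.val i rfl) j
      have h1 : deh s G = deh s (X 0 : MvPolynomial (Fin (n + 2)) ℤ) ^ d +
          ∑ i : Fin (n + 1), deh s (X i.castSucc) * deh s (X i.succ) ^ (d - 1) := by
        simp only [G, deh_add, deh_sum, deh_mul, deh_pow]
      rw [h1] at hGQ
      have h2 : ∑ i : Fin (n + 1), deh s (X i.castSucc : MvPolynomial (Fin (n + 2)) ℤ) *
          deh s (X i.succ) ^ (d - 1) ∈ Q := by
        refine Ideal.sum_mem _ fun i _ => Ideal.mul_mem_left _ _ ?_
        exact Ideal.pow_mem_of_mem _ (hkey i.val i rfl) _ (by omega)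
      exact hQ.mem_of_pow_mem _ ((Ideal.add_mem_iff_left _ h2).1 hGQ)
    have h1 := hx s
    rw [deh_Xs] at h1
    exact hQ.ne_top ((Ideal.eq_top_iff_one _).2 h1)
  · let G : MvPolynomial (Fin (n + 2)) ℤ := ∑ i, X i ^ d
    have hG : G.IsHomogeneous d := IsHomogeneous.sum _ _ _ fun i _ => isHomogeneous_X_pow _ _
    refine ⟨fun α => coeff α.1 G, ?_⟩
    rw [form_coeff G hG]
    intro s Q hQ hC hGQ
    by_contra hcon
    push Not at hcon
    have hall := all_pderiv_mem G d hG s Q hGQ hcon
    have h1 := hall s
    have h2 : pderiv s G = (d : MvPolynomial (Fin (n + 2)) ℤ) * X s ^ (d - 1) := by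
      simp only [G, map_sum]
      rw [Finset.sum_eq_single s]
      · rw [pderiv_pow, pderiv_X_self, mul_one]
      · intro b _ hb
        rw [pderiv_pow, pderiv_X_of_ne hb, mul_zero]
      · intro h
        exact absurd (Finset.mem_univ _) h
    rw [h2, deh_mul, deh_pow, deh_Xs, one_pow, mul_one, deh_natCast] at h1
    have h3 : C (d : ℤ) ∈ Q := by simpa using h1
    have h4 := (hC (d : ℤ)).1 h3
    rw [Ideal.mem_span_singleton] at h4
    exact hpd (by exact_mod_cast h4)

end Pool.Agent.Q272.OD
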