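import Pool.Agent.Q272.OD.Trans
import Pool.Agent.Q272.OD.EK8

/-! Project OD (helper40), jobs OD-31 and OD-32: positive proportion; almost all forms. -/

set_option autoImplicit false
set_option linter.unusedSectionVars false
set_option linter.unusedVariables false

namespace Pool.Agent.Q272.OD

open Pool.Agent.Q40.OD Pool.Agent.TH214.RM Pool.Agent.H918R2.Quad MvPolynomial

theorem form_add_mul {R : Type} [CommRing R] {n d : ℕ} (b e : Ix n d → R) (p : R) :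
    form n d (fun α => b α + p * e α) = form n d b + C p * form n d e := by
  unfold form
  rw [Finset.mul_sum, ← Finset.sum_add_distrib]
  refine Finset.sum_congr rfl fun α _ => ?_
  rw [C_mul_monomial, ← map_add]

theorem deh_C {O ι : Type} [CommRing O] [DecidableEq ι] (s : ι) (r : O) :
    deh s (C r : MvPolynomial ι O) = C r := by
  unfold deh
  rw [aeval_C]
  rfl

/-- Smoothness modulo `p` depends only on the coefficients modulo `p`. -/
theorem smAt_congr {n d : ℕ} (p : ℕ) (b c : Ix n d → ℤ) (h : ∀ α, (p : ℤ) ∣ c α - b α)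
    (hb : SmAt (Ideal.span {(p : ℤ)}) (form n d b)) :
    SmAt (Ideal.span {(p : ℤ)}) (form n d c) := by
  choose e he using h
  have h1 : form n d c = form n d b + C (p : ℤ) * form n d e := by
    rw [← form_add_mul]
    congr 1
    funext α
    rw [← he α]
    ring
  intro s Q hQ hC hG
  have hpQ : (C (p : ℤ) : MvPolynomial {j : Fin (n + 2) // j ≠ s} ℤ) ∈ Q :=
    (hC _).2 (Ideal.mem_span_singleton_self _)
  rw [h1, deh_add, deh_mul, deh_C] at hG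
  have h2 : deh s (form n d b) ∈ Q :=
    (Ideal.add_mem_iff_left _ (Ideal.mul_mem_right _ _ hpQ)).1 hG
  obtain ⟨j, hj⟩ := hb s Q hQ hC h2
  refine ⟨j, fun h3 => hj ?_⟩
  rw [h1, deh_add, deh_mul, deh_C, map_add, pderiv_C_mul] at h3
  exact (Ideal.add_mem_iff_left _ (Ideal.mul_mem_right _ _ hpQ)).1 h3

theorem nondeg_of_smAt {O ι : Type} [CommRing O] [Fintype ι] [DecidableEq ι] (𝔭 : Ideal O)
    (G : MvPolynomial ι O) (h : SmAt 𝔭 G) : Nondeg 𝔭 G := by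
  intro s Q hQ hC hG hall
  obtain ⟨j, hj⟩ := h s Q hQ hC hG
  exact absurd (hall j) hj

/-- Chinese remainder theorem for integers modulo the primes up to `M`. -/
theorem crt (M : ℕ) (a : ℕ → ℤ) : ∃ b : ℤ, ∀ p : ℕ, p.Prime → p ≤ M → (p : ℤ) ∣ b - a p := by
  classical
  let t : Finset ℕ := (Finset.range (M + 1)).filter Nat.Prime
  have ht : ∀ i ∈ t, (fun i : ℕ => i) i ≠ 0 := by
    intro i hi
    exact (Finset.mem_filter.1 hi).2.ne_zero
  have hco : Set.Pairwise (t : Set ℕ) (Function.onFun Nat.Coprime (fun i : ℕ => i)) := by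
    intro i hi j hj hij
    exact (Nat.coprime_primes (Finset.mem_filter.1 hi).2 (Finset.mem_filter.1 hj).2).2 hij
  obtain ⟨k, hk⟩ := Nat.chineseRemainderOfFinset (fun p => (a p % p).toNat) (fun i => i) t ht hco
  refine ⟨k, fun p hp hpM => ?_⟩
  have h1 := hk p (Finset.mem_filter.2 ⟨Finset.mem_range.2 (by omega), hp⟩)
  have h2 : (p : ℤ) ∣ (k : ℤ) - ((a p % p).toNat : ℤ) := (Nat.modEq_iff_dvd.1 h1.symm)
  have hp0 : (p : ℤ) ≠ 0 := by exact_mod_cast hp.ne_zero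
  rw [Int.toNat_of_nonneg (Int.emod_nonneg _ hp0)] at h2
  have h3 : (p : ℤ) ∣ (a p % p) - a p := by
    have h4 := Int.emod_add_mul_ediv (a p) p
    refine ⟨-(a p / p), ?_⟩
    linarith
  have h4 := dvd_add h2 h3
  have h5 : (k : ℤ) - a p % p + (a p % p - a p) = k - a p := by ring
  rwa [h5] at h4

/-- The count of the complement. -/
theorem card_compl {ι : Type} [Finite ι] (H : ℕ) (P E : (ι → ℤ) → Prop) :
    (Nat.card {c : ι → ℤ // (∀ i, |c i| ≤ H) ∧ P c} : ℝ) -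
      (Nat.card {c : ι → ℤ // (∀ i, |c i| ≤ H) ∧ (P c ∧ E c)} : ℝ) =
    (Nat.card {c : ι → ℤ // (∀ i, |c i| ≤ H) ∧ (P c ∧ ¬ E c)} : ℝ) := by
  classical
  have := finite_box H P
  have := finite_box H (fun c => P c ∧ E c)
  have := finite_box H (fun c => P c ∧ ¬ E c)
  have h1 : Nat.card {c : ι → ℤ // (∀ i, |c i| ≤ H) ∧ P c} =
      Nat.card {c : ι → ℤ // (∀ i, |c i| ≤ H) ∧ (P c ∧ E c)} +
      Nat.card {c : ι → ℤ // (∀ i, |c i| ≤ H) ∧ (P c ∧ ¬ E c)} := by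
    rw [← Nat.card_sum]
    refine Nat.card_congr ⟨fun c => if h : E c.1 then Sum.inl ⟨c.1, c.2.1, c.2.2, h⟩
      else Sum.inr ⟨c.1, c.2.1, c.2.2, h⟩,
      Sum.elim (fun c => ⟨c.1, c.2.1, c.2.2.1⟩) (fun c => ⟨c.1, c.2.1, c.2.2.1⟩), ?_, ?_⟩
    · intro c
      by_cases h : E c.1
      · simp [h]
      · simp [h]
    · rintro (c | c)
      · have := c.2.2.2
        simp [this]
      · have := c.2.2.2
        simp [this]
  rw [h1]
  push_cast
  ring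

theorem card_mono {ι : Type} [Finite ι] (H : ℕ) (P E : (ι → ℤ) → Prop)
    (h : ∀ c : ι → ℤ, (∀ i, |c i| ≤ H) → P c → E c) :
    (Nat.card {c : ι → ℤ // (∀ i, |c i| ≤ H) ∧ P c} : ℝ) ≤
      (Nat.card {c : ι → ℤ // (∀ i, |c i| ≤ H) ∧ E c} : ℝ) := by
  have := finite_box H E
  have h1 := Nat.card_le_card_of_injective
    (fun c : {c : ι → ℤ // (∀ i, |c i| ≤ H) ∧ P c} =>
      (⟨c.1, c.2.1, h c.1 c.2.1 c.2.2⟩ : {c : ι → ℤ // (∀ i, |c i| ≤ H) ∧ E c}))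
    (fun a b hab => Subtype.ext (congrArg (fun z => z.1) hab))
  exact_mod_cast h1

theorem s_ek9 (h3 : S_EK3) (h6 : S_EK6) (h7 : S_EK7) (h8 : S_EK8) : S_EK9 := by
  classical
  intro n d hd
  obtain ⟨S, N₀, hCop, hS⟩ := h6 n d (by omega)
  obtain ⟨C₀, hC₀, hEk⟩ := ek3_gen h3 S hCop
  let M : ℕ := max 2 (max N₀ (4 * C₀))
  have hM2 : 2 ≤ M := le_max_left _ _
  have hMN : N₀ ≤ M := le_trans (le_max_left _ _) (le_max_right _ _)
  have hMC : 4 * C₀ ≤ M := le_trans (le_max_right _ _) (le_max_right _ _)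
  let Q : ℕ := primorial M
  have hQ1 : 1 ≤ Q := primorial_pos M
  have hQdvd : ∀ p : ℕ, p.Prime → p ≤ M → p ∣ Q := by
    intro p hp hpM
    exact (hp.dvd_primorial_iff).2 hpM
  have hQndvd : ∀ p : ℕ, p.Prime → M < p → ¬ p ∣ Q := by
    intro p hp hpM h
    have := (hp.dvd_primorial_iff).1 h
    omega
  choose bp hbp using fun p : Nat.Primes => h8 n d hd p.1 p.2
  have hb : ∀ α : Ix n d, ∃ b : ℤ, ∀ p : ℕ, (hp : p.Prime) → p ≤ M →
      (p : ℤ) ∣ b - bp ⟨p, hp⟩ α := by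
    intro α
    obtain ⟨b, hb⟩ := crt M (fun p => if hp : p.Prime then bp ⟨p, hp⟩ α else 0)
    refine ⟨b, fun p hp hpM => ?_⟩
    have := hb p hp hpM
    rwa [dif_pos hp] at this
  choose b hb using hb
  obtain ⟨H₀, hH₀⟩ := hEk M Q (by omega) hQ1
  let k := Fintype.card (Ix n d)
  have hQR : (0 : ℝ) < Q := by exact_mod_cast hQ1
  refine ⟨1 / (2 * Q ^ k), by positivity, max H₀ (Q * (4 * k + 1)), fun H hH => ?_⟩
  have hHH₀ : H₀ ≤ H := le_trans (le_max_left _ _) hH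
  have hHQ : Q * (4 * k + 1) ≤ H := le_trans (le_max_right _ _) hH
  have h1 := hH₀ H hHH₀ b
  have hQH : Q ≤ 2 * H + 1 := by nlinarith
  have h2 := card_box_class H Q hQ1 hQH b
  have h4 := card_compl H (fun c : Ix n d → ℤ => ∀ i, (Q : ℤ) ∣ c i - b i)
    (fun c => ∃ p : ℕ, p.Prime ∧ M < p ∧ ¬ p ∣ Q ∧ ∀ G ∈ S, (p : ℤ) ∣ eval c G)
  have h5 := card_mono H (fun c : Ix n d → ℤ => (∀ i, (Q : ℤ) ∣ c i - b i) ∧
    ¬ (∃ p : ℕ, p.Prime ∧ M < p ∧ ¬ p ∣ Q ∧ ∀ G ∈ S, (p : ℤ) ∣ eval c G))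
    (fun c => Smooth (map (Int.castRingHom ℚ) (form n d c)) ∧
        ∀ p : ℕ, p.Prime → Nondeg (Ideal.span {(p : ℤ)}) (form n d c)) (by
      rintro c hc ⟨hcQ, hcE⟩
      have hsm : ∀ p : ℕ, p.Prime → p ≤ M → SmAt (Ideal.span {(p : ℤ)}) (form n d c) := by
        intro p hp hpM
        refine smAt_congr p (bp ⟨p, hp⟩) c ?_ (hbp ⟨p, hp⟩)
        intro α
        have h6 : (p : ℤ) ∣ c α - b α :=
          dvd_trans (by exact_mod_cast hQdvd p hp hpM) (hcQ α)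
        have h7 := dvd_add h6 (hb α p hp hpM)
        have h8 : c α - b α + (b α - bp ⟨p, hp⟩ α) = c α - bp ⟨p, hp⟩ α := by ring
        rwa [h8] at h7
      refine ⟨?_, fun p hp => ?_⟩
      · exact h7 (by omega) (form n d c) (form_homog c) 2 Nat.prime_two (hsm 2 Nat.prime_two hM2)
      · by_cases hpM : p ≤ M
        · exact nondeg_of_smAt _ _ (hsm p hp hpM)
        · push Not at hpM
          by_contra hnd
          exact hcE ⟨p, hp, hpM, hQndvd p hp hpM, hS c p hp (by omega) hnd⟩)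
  refine le_trans ?_ h5
  rw [← h4]
  have hMR : (0 : ℝ) < M := by
    have : 0 < M := by omega
    exact_mod_cast this
  have hCM : (C₀ : ℝ) / M ≤ 1 / 4 := by
    rw [div_le_div_iff₀ hMR (by norm_num)]
    have : (4 * C₀ : ℝ) ≤ M := by exact_mod_cast hMC
    linarith
  -- the real computation
  have hx : (0 : ℝ) < 2 * H / Q + 1 := by positivity
  have hE : (Nat.card {c : Ix n d → ℤ // (∀ i, |c i| ≤ H) ∧ ((∀ i, (Q : ℤ) ∣ c i - b i) ∧
      ∃ p : ℕ, p.Prime ∧ M < p ∧ ¬ p ∣ Q ∧ ∀ G ∈ S, (p : ℤ) ∣ eval c G)} : ℝ) ≤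
      1 / 4 * (2 * H / Q + 1) ^ k :=
    le_trans h1 (mul_le_mul_of_nonneg_right hCM (by positivity))
  have hA : 3 / 4 * (2 * H / Q + 1 : ℝ) ^ k ≤ ((2 * H + 1 : ℝ) / Q - 1) ^ k := by
    have hB : (2 * H / Q + 1 : ℝ) * (1 - 2 / (2 * H / Q + 1)) ≤ (2 * H + 1 : ℝ) / Q - 1 := by
      rw [mul_sub, mul_one, mul_div_cancel₀ _ hx.ne']
      have : (2 * H : ℝ) / Q ≤ (2 * H + 1) / Q := by gcongr; linarith
      linarith
    have hbig : (8 * k : ℝ) ≤ 2 * H / Q + 1 := by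
      have h6 : (4 * k + 1 : ℝ) ≤ H / Q := by
        rw [le_div_iff₀ hQR]
        have : ((Q * (4 * k + 1) : ℕ) : ℝ) ≤ H := by exact_mod_cast hHQ
        push_cast at this
        linarith
      have h7 : (2 * H : ℝ) / Q = 2 * (H / Q) := by ring
      rw [h7]
      linarith
    have h2x : (2 : ℝ) ≤ 2 * H / Q + 1 := by
      have h6 : (4 * k + 1 : ℝ) ≤ H / Q := by
        rw [le_div_iff₀ hQR]
        have : ((Q * (4 * k + 1) : ℕ) : ℝ) ≤ H := by exact_mod_cast hHQ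
        push_cast at this
        linarith
      have h7 : (2 * H : ℝ) / Q = 2 * (H / Q) := by ring
      have h8 : (0 : ℝ) ≤ k := by positivity
      rw [h7]
      linarith
    have hnn : (0 : ℝ) ≤ 1 - 2 / (2 * H / Q + 1) := by
      rw [sub_nonneg, div_le_one hx]
      exact h2x
    have hbern : (3 / 4 : ℝ) ≤ (1 - 2 / (2 * H / Q + 1)) ^ k := by
      have h9 := one_add_mul_le_pow (a := -(2 / (2 * H / Q + 1 : ℝ))) (by linarith) k
      have h10 : (k : ℝ) * (2 / (2 * H / Q + 1)) ≤ 1 / 4 := by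
        rw [mul_div_assoc', div_le_iff₀ hx]
        linarith
      have h11 : (1 + -(2 / (2 * H / Q + 1 : ℝ))) = 1 - 2 / (2 * H / Q + 1) := by ring
      rw [h11] at h9
      linarith
    calc 3 / 4 * (2 * H / Q + 1 : ℝ) ^ k ≤ (1 - 2 / (2 * H / Q + 1)) ^ k *
          (2 * H / Q + 1 : ℝ) ^ k := by gcongr
      _ = ((2 * H / Q + 1 : ℝ) * (1 - 2 / (2 * H / Q + 1))) ^ k := by rw [mul_pow]; ring
      _ ≤ _ := by
          apply pow_le_pow_left₀ (mul_nonneg hx.le hnn) hB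
  have hfin : 1 / (2 * (Q : ℝ) ^ k) * (2 * H + 1) ^ k ≤ 1 / 2 * (2 * H / Q + 1 : ℝ) ^ k := by
    have h6 : ((2 * H + 1 : ℝ) / Q) ^ k ≤ (2 * H / Q + 1 : ℝ) ^ k := by
      apply pow_le_pow_left₀ (by positivity)
      rw [add_div]
      have : (1 : ℝ) / Q ≤ 1 := by
        rw [div_le_one hQR]
        exact_mod_cast hQ1
      linarith
    rw [div_pow] at h6
    calc 1 / (2 * (Q : ℝ) ^ k) * (2 * H + 1) ^ k = 1 / 2 * ((2 * H + 1) ^ k / Q ^ k) := by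
          field_simp
      _ ≤ _ := by gcongr
  have h2' : ((2 * H + 1 : ℝ) / Q - 1) ^ k ≤
      (Nat.card {c : Ix n d → ℤ // (∀ i, |c i| ≤ H) ∧ ∀ i, (Q : ℤ) ∣ c i - b i} : ℝ) := h2
  linarith

theorem s_ek10 (h1 : S_EK1) (h3 : S_EK3) (h6 : S_EK6) (h6' : S_EK6P) : S_EK10 := by
  classical
  intro n d hd ε hε
  obtain ⟨S, N₀, hCop, hS⟩ := h6 n d hd
  obtain ⟨C₀, hC₀, hEk⟩ := ek3_gen h3 S hCop
  obtain ⟨Δ, hΔ, hsm⟩ := h6' n d hd
  let M : ℕ := max 1 (max N₀ (max C₀ ⌈2 * C₀ / ε⌉₊))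
  have hM1 : 1 ≤ M := le_max_left _ _
  have hMN : N₀ ≤ M := le_trans (le_max_left _ _) (le_max_right _ _)
  have hMC : C₀ ≤ M := le_trans (le_trans (le_max_left _ _) (le_max_right _ _)) (le_max_right _ _)
  have hMe : (2 * C₀ / ε : ℝ) ≤ M := by
    refine le_trans (Nat.le_ceil _) ?_
    have h : ⌈(2 * C₀ / ε : ℝ)⌉₊ ≤ M :=
      le_trans (le_trans (le_max_right _ _) (le_max_right _ _)) (le_max_right _ _)
    exact Nat.cast_le.2 h
  obtain ⟨H₀, hH₀⟩ := hEk M 1 hMC le_rfl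
  let k := Fintype.card (Ix n d)
  have hk : 1 ≤ k := by
    have : Nonempty (Ix n d) := ⟨⟨Finsupp.single 0 d, by simp⟩⟩
    exact Fintype.card_pos
  refine ⟨M, max H₀ ⌈2 * Δ.totalDegree / ε⌉₊, fun H hH => ?_⟩
  have hHH₀ : H₀ ≤ H := le_trans (le_max_left _ _) hH
  have hHe : (2 * Δ.totalDegree / ε : ℝ) ≤ H := by
    refine le_trans (Nat.le_ceil _) ?_
    exact_mod_cast le_trans (le_max_right _ _) hH
  have h2 := hH₀ H hHH₀ 0
  have h4 := ek1_gen h1 Δ hΔ H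
  have hMR : (0 : ℝ) < M := by exact_mod_cast hM1
  have hCM : (C₀ : ℝ) / M ≤ ε / 2 := by
    rw [div_le_iff₀ hMR]
    rw [div_le_iff₀ hε] at hMe
    linarith
  have hA : (0 : ℝ) ≤ (2 * H + 1 : ℝ) ^ (k - 1) := by positivity
  have h5 : (Δ.totalDegree : ℝ) * (2 * H + 1) ^ (k - 1) ≤ ε / 2 * (2 * H + 1) ^ k := by
    have h6 : (Δ.totalDegree : ℝ) ≤ ε / 2 * (2 * H + 1) := by
      rw [div_le_iff₀ hε] at hHe
      nlinarith
    calc (Δ.totalDegree : ℝ) * (2 * H + 1) ^ (k - 1) ≤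
          (ε / 2 * (2 * H + 1)) * (2 * H + 1) ^ (k - 1) := by gcongr
      _ = ε / 2 * (2 * H + 1) ^ k := by
          rw [mul_assoc, ← pow_succ']
          congr 2
          omega
  have h6 : ((C₀ : ℝ) / M) * (2 * H / (1 : ℕ) + 1) ^ k ≤ ε / 2 * (2 * H + 1) ^ k := by
    rw [Nat.cast_one, div_one]
    gcongr
  have f1 := finite_box H (fun c : Ix n d → ℤ => (∀ i, ((1 : ℕ) : ℤ) ∣ c i - (0 : Ix n d → ℤ) i) ∧
        ∃ p : ℕ, p.Prime ∧ M < p ∧ ¬ p ∣ 1 ∧ ∀ G ∈ S, (p : ℤ) ∣ eval c G)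
  have f2 := finite_box H (fun c : Ix n d → ℤ => eval c Δ = 0)
  have h7 : Nat.card {c : Ix n d → ℤ // (∀ α, |c α| ≤ H) ∧
        ¬ (Smooth (map (Int.castRingHom ℚ) (form n d c)) ∧
          ∀ p : ℕ, p.Prime → M < p → Nondeg (Ideal.span {(p : ℤ)}) (form n d c))} ≤
      Nat.card {c : Ix n d → ℤ // (∀ i, |c i| ≤ H) ∧
        ((∀ i, ((1 : ℕ) : ℤ) ∣ c i - (0 : Ix n d → ℤ) i) ∧
        ∃ p : ℕ, p.Prime ∧ M < p ∧ ¬ p ∣ 1 ∧ ∀ G ∈ S, (p : ℤ) ∣ eval c G)} +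
      Nat.card {c : Ix n d → ℤ // (∀ i, |c i| ≤ H) ∧ eval c Δ = 0} := by
    rw [← Nat.card_sum]
    have hex : ∀ c : {c : Ix n d → ℤ // (∀ α, |c α| ≤ H) ∧
        ¬ (Smooth (map (Int.castRingHom ℚ) (form n d c)) ∧
          ∀ p : ℕ, p.Prime → M < p → Nondeg (Ideal.span {(p : ℤ)}) (form n d c))},
        eval c.1 Δ ≠ 0 → ((∀ i, ((1 : ℕ) : ℤ) ∣ c.1 i - (0 : Ix n d → ℤ) i) ∧
        ∃ p : ℕ, p.Prime ∧ M < p ∧ ¬ p ∣ 1 ∧ ∀ G ∈ S, (p : ℤ) ∣ eval c.1 G) := by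
      intro c hc
      refine ⟨fun i => by simp, ?_⟩
      have h8 := c.2.2
      have h9 : Smooth (map (Int.castRingHom ℚ) (form n d c.1)) := by
        by_contra h
        exact hc (hsm c.1 h)
      push Not at h8
      obtain ⟨p, hp, hpM, hnd⟩ := h8 h9
      exact ⟨p, hp, hpM, hp.one_lt.ne' ∘ Nat.dvd_one.1, hS c.1 p hp (by omega) hnd⟩
    refine Nat.card_le_card_of_injective
      (fun c => if h : eval c.1 Δ = 0 then Sum.inr ⟨c.1, c.2.1, h⟩
        else Sum.inl ⟨c.1, c.2.1, hex c h⟩) ?_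
    intro c c' hcc
    apply Subtype.ext
    by_cases h : eval c.1 Δ = 0
    · by_cases h' : eval c'.1 Δ = 0
      · simp only [h, h', dif_pos] at hcc
        exact congrArg (fun z => z.1) (Sum.inr.inj hcc)
      · simp only [h, h', dif_pos, dif_neg, not_false_eq_true] at hcc
        exact absurd hcc (by simp)
    · by_cases h' : eval c'.1 Δ = 0
      · simp only [h, h', dif_pos, dif_neg, not_false_eq_true] at hcc
        exact absurd hcc (by simp)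
      · simp only [h, h', dif_neg, not_false_eq_true] at hcc
        exact congrArg (fun z => z.1) (Sum.inl.inj hcc)
  have h8 : (Nat.card {c : Ix n d → ℤ // (∀ α, |c α| ≤ H) ∧
        ¬ (Smooth (map (Int.castRingHom ℚ) (form n d c)) ∧
          ∀ p : ℕ, p.Prime → M < p → Nondeg (Ideal.span {(p : ℤ)}) (form n d c))} : ℝ) ≤
      Nat.card {c : Ix n d → ℤ // (∀ i, |c i| ≤ H) ∧
        ((∀ i, ((1 : ℕ) : ℤ) ∣ c i - (0 : Ix n d → ℤ) i) ∧
        ∃ p : ℕ, p.Prime ∧ M < p ∧ ¬ p ∣ 1 ∧ ∀ G ∈ S, (p : ℤ) ∣ eval c G)} +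
      Nat.card {c : Ix n d → ℤ // (∀ i, |c i| ≤ H) ∧ eval c Δ = 0} := by exact_mod_cast h7
  have h9 := le_trans h2 h6
  have h10 := le_trans h4 h5
  have h11 : ε * (2 * (H : ℝ) + 1) ^ k = ε / 2 * (2 * H + 1) ^ k + ε / 2 * (2 * H + 1) ^ k := by
    ring
  rw [h11]
  exact le_trans h8 (add_le_add h9 h10)

end Pool.Agent.Q272.OD
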