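import Pool.Agent.Q40.OD.Stm2

/-! Project OD (helper40): transfer of the uniform Ekedahl sieve to arbitrary finite index sets,
counting lemmas. -/

set_option autoImplicit false
set_option linter.unusedSectionVars false
set_option linter.unusedVariables false

namespace Pool.Agent.Q272.OD

open Pool.Agent.Q40.OD MvPolynomial

theorem cop_rename {ι κ : Type} (e : ι ≃ κ) [DecidableEq (MvPolynomial κ ℤ)]
    (S : Finset (MvPolynomial ι ℤ))
    (hS : Cop (S : Set (MvPolynomial ι ℤ))) :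
    Cop ((S.image (rename e) : Finset (MvPolynomial κ ℤ)) : Set (MvPolynomial κ ℤ)) := by
  intro P hP
  have h1 : IsUnit (rename e.symm P) := by
    apply hS
    intro G hG
    have h2 := hP (rename e G) (by
      rw [Finset.coe_image]
      exact ⟨G, hG, rfl⟩)
    have h3 := map_dvd (rename (R := ℚ) e.symm) h2
    rw [← map_rename, rename_rename] at h3
    simpa using h3
  have h2 := h1.map (rename (R := ℚ) e)
  rw [rename_rename] at h2
  simpa using h2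

theorem eval_rename_equiv {ι κ : Type} (e : ι ≃ κ) (G : MvPolynomial ι ℤ) (c : ι → ℤ) :
    eval (fun k => c (e.symm k)) (rename e G) = eval c G := by
  rw [eval_rename]
  congr 2
  ext i
  simp

/-- The uniform Ekedahl sieve for arbitrary finite index sets. -/
theorem ek3_gen (h3 : S_EK3) {ι : Type} [Fintype ι] (S : Finset (MvPolynomial ι ℤ))
    (hS : Cop (S : Set (MvPolynomial ι ℤ))) :
    ∃ C : ℕ, 0 < C ∧ ∀ M Q : ℕ, C ≤ M → 1 ≤ Q → ∃ H₀ : ℕ, ∀ H : ℕ, H₀ ≤ H → ∀ b : ι → ℤ,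
      (Nat.card {c : ι → ℤ // (∀ i, |c i| ≤ H) ∧ (∀ i, (Q : ℤ) ∣ c i - b i) ∧
        ∃ p : ℕ, p.Prime ∧ M < p ∧ ¬ p ∣ Q ∧ ∀ G ∈ S, (p : ℤ) ∣ eval c G} : ℝ) ≤
      ((C : ℝ) / M) * (2 * H / Q + 1) ^ (Fintype.card ι) := by
  classical
  let e : ι ≃ Fin (Fintype.card ι) := Fintype.equivFin ι
  obtain ⟨C, hC, h⟩ := h3 (S.image (rename e)) (cop_rename e S hS)
  refine ⟨C, hC, fun M Q hM hQ => ?_⟩
  obtain ⟨H₀, hH₀⟩ := h M Q hM hQ
  refine ⟨H₀, fun H hH b => ?_⟩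
  have h1 := hH₀ H hH (fun k => b (e.symm k))
  refine le_trans (le_of_eq ?_) h1
  congr 1
  refine Nat.card_congr ⟨fun c => ⟨fun k => c.1 (e.symm k), ?_⟩, fun c => ⟨fun i => c.1 (e i), ?_⟩,
    ?_, ?_⟩
  · obtain ⟨h2, h3, p, hp, hMp, hpQ, hG⟩ := c.2
    refine ⟨fun k => h2 _, fun k => h3 _, p, hp, hMp, hpQ, ?_⟩
    intro G hG'
    rw [Finset.mem_image] at hG'
    obtain ⟨G₀, hG₀, rfl⟩ := hG'
    rw [eval_rename_equiv e G₀ c.1]
    exact hG G₀ hG₀
  · obtain ⟨h2, h3, p, hp, hMp, hpQ, hG⟩ := c.2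
    refine ⟨fun k => h2 _, fun k => ?_, p, hp, hMp, hpQ, ?_⟩
    · have := h3 (e k)
      simpa using this
    intro G hG'
    have h4 := hG (rename e G) (Finset.mem_image_of_mem _ hG')
    have h5 := eval_rename_equiv e G (fun i => c.1 (e i))
    simp only [Equiv.apply_symm_apply] at h5
    rw [← h5]
    exact h4
  · intro c
    ext i
    simp
  · intro c
    ext i
    simp

theorem ek1_gen (h1 : S_EK1) {ι : Type} [Fintype ι] (F : MvPolynomial ι ℤ) (hF : F ≠ 0) (H : ℕ) :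
    (Nat.card {c : ι → ℤ // (∀ i, |c i| ≤ H) ∧ eval c F = 0} : ℝ) ≤
      F.totalDegree * (2 * H + 1) ^ (Fintype.card ι - 1) := by
  classical
  let e : ι ≃ Fin (Fintype.card ι) := Fintype.equivFin ι
  have hfin : ∀ i : Fin (Fintype.card ι), ({t : ℤ | |t| ≤ H} : Set ℤ).Finite := by
    intro _
    refine (Set.finite_Icc (-(H : ℤ)) H).subset ?_
    intro t ht
    exact abs_le.1 ht
  have hcard : (Nat.card {t : ℤ // t ∈ {t : ℤ | |t| ≤ H}} : ℝ) ≤ 2 * H + 1 := by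
    have h2 : Nat.card {t : ℤ // t ∈ {t : ℤ | |t| ≤ H}} = 2 * H + 1 := by
      have h3 : {t : ℤ | |t| ≤ H} = (Finset.Icc (-(H : ℤ)) H : Set ℤ) := by
        ext t
        simp [abs_le]
      rw [h3]
      simp only [Finset.mem_coe, Nat.card_eq_fintype_card, Fintype.card_coe, Int.card_Icc]
      omega
    rw [h2]
    push_cast
    exact le_rfl
  have hF' : rename e F ≠ 0 := by
    intro h
    apply hF
    exact (map_eq_zero_iff _ (rename_injective _ e.injective)).1 h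
  have h2 := h1 (k := ℤ) (rename e F) hF' (fun _ => {t : ℤ | |t| ≤ H}) hfin (2 * H + 1) 1
    (fun _ => hcard) (by norm_num) (by
      intro i r
      have : Subsingleton {t : ℤ // t ∈ {t : ℤ | |t| ≤ H} ∧ (t : ℤ) = r} :=
        ⟨fun a b => Subtype.ext (by
          have ha := a.2.2
          have hb := b.2.2
          rw [ha, hb])⟩
      exact_mod_cast Finite.card_le_one_iff_subsingleton.2 this)
  have hdeg : (rename e F).totalDegree ≤ F.totalDegree := totalDegree_rename_le _ _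
  calc (Nat.card {c : ι → ℤ // (∀ i, |c i| ≤ H) ∧ eval c F = 0} : ℝ)
      = (Nat.card {c : Fin (Fintype.card ι) → ℤ // (∀ i, c i ∈ {t : ℤ | |t| ≤ H}) ∧
        eval (fun i => (c i : ℤ)) (rename e F) = 0} : ℝ) := by
        congr 1
        refine Nat.card_congr ⟨fun c => ⟨fun k => c.1 (e.symm k), ?_⟩,
          fun c => ⟨fun i => c.1 (e i), ?_⟩, ?_, ?_⟩
        · refine ⟨fun k => c.2.1 _, ?_⟩
          rw [eval_rename_equiv e F c.1]
          exact c.2.2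
        · refine ⟨fun k => c.2.1 _, ?_⟩
          have h5 := eval_rename_equiv e F (fun i => c.1 (e i))
          have h6 : (fun k => (fun i => c.1 (e i)) (e.symm k)) = c.1 := by
            funext k
            simp
          rw [h6] at h5
          rw [← h5]
          exact c.2.2
        · intro c
          ext i
          simp
        · intro c
          ext i
          simp
    _ ≤ _ := h2
    _ ≤ F.totalDegree * (2 * H + 1) ^ (Fintype.card ι - 1) := by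
        rw [mul_one]
        gcongr

/-- Numbers in an interval in a residue class. -/
theorem card_class (H Q : ℕ) (hQ : 1 ≤ Q) (v : ℤ) :
    ((2 * H + 1 : ℝ) / Q - 1) ≤ (Nat.card {t : ℤ // |t| ≤ H ∧ (Q : ℤ) ∣ t - v} : ℝ) := by
  classical
  have hQ0 : (0 : ℤ) < Q := by exact_mod_cast hQ
  have h1 := Int.Ioc_filter_modEq_card (-(H : ℤ) - 1) H hQ0 v
  have h2 : Nat.card {t : ℤ // |t| ≤ H ∧ (Q : ℤ) ∣ t - v} =
      (Finset.filter (fun x => x ≡ v [ZMOD (Q : ℤ)]) (Finset.Ioc (-(H : ℤ) - 1) H)).card := by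
    rw [← Fintype.card_coe, ← Nat.card_eq_fintype_card]
    refine Nat.card_congr (Equiv.subtypeEquivRight fun t => ?_)
    rw [Finset.mem_filter, Finset.mem_Ioc, abs_le, Int.modEq_iff_dvd]
    constructor
    · rintro ⟨⟨h3, h4⟩, h5⟩
      refine ⟨⟨by omega, h4⟩, ?_⟩
      rw [← neg_sub, dvd_neg]
      exact h5
    · rintro ⟨⟨h3, h4⟩, h5⟩
      refine ⟨⟨by omega, h4⟩, ?_⟩
      rw [← neg_sub, dvd_neg]
      exact h5
  rw [h2]
  have hQR : (0 : ℚ) < Q := by exact_mod_cast hQ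
  have h3 : ((2 * H + 1 : ℚ) / Q - 1) ≤ ((Finset.filter (fun x => x ≡ v [ZMOD (Q : ℤ)])
      (Finset.Ioc (-(H : ℤ) - 1) H)).card : ℚ) := by
    have h4 : ((Finset.filter (fun x => x ≡ v [ZMOD (Q : ℤ)])
      (Finset.Ioc (-(H : ℤ) - 1) H)).card : ℚ) =
      (((Finset.filter (fun x => x ≡ v [ZMOD (Q : ℤ)])
      (Finset.Ioc (-(H : ℤ) - 1) H)).card : ℤ) : ℚ) := by push_cast; rfl
    rw [h4, h1]
    rw [Int.cast_max]
    refine le_trans ?_ (le_max_left _ _)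
    rw [Int.cast_sub]
    have h5 := Int.lt_floor_add_one (((H : ℤ) - v : ℚ) / ((Q : ℤ) : ℚ))
    have h6 := Int.floor_le (((-(H : ℤ) - 1 : ℤ) - v : ℚ) / ((Q : ℤ) : ℚ))
    have h7 : ((H : ℤ) - v : ℚ) / ((Q : ℤ) : ℚ) - ((-(H : ℤ) - 1 : ℤ) - v : ℚ) / ((Q : ℤ) : ℚ) =
        (2 * H + 1) / Q := by
      push_cast
      rw [← sub_div]
      congr 1
      ring
    linarith
  have h8 : (((2 * H + 1 : ℚ) / Q - 1 : ℚ) : ℝ) ≤ (((Finset.filter (fun x => x ≡ v [ZMOD (Q : ℤ)])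
      (Finset.Ioc (-(H : ℤ) - 1) H)).card : ℚ) : ℝ) := by exact_mod_cast h3
  push_cast at h8
  exact h8

theorem finite_box {ι : Type} [Finite ι] (H : ℕ) (P : (ι → ℤ) → Prop) :
    Finite {c : ι → ℤ // (∀ i, |c i| ≤ H) ∧ P c} := by
  have h1 : (Set.univ.pi fun _ : ι => Set.Icc (-(H : ℤ)) H).Finite :=
    Set.Finite.pi fun _ => Set.finite_Icc _ _
  refine (h1.subset ?_ : ({c : ι → ℤ | (∀ i, |c i| ≤ H) ∧ P c} : Set (ι → ℤ)).Finite).to_subtype
  intro c hc i _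
  exact abs_le.1 (hc.1 i)

theorem card_box_class {ι : Type} [Fintype ι] (H Q : ℕ) (hQ : 1 ≤ Q) (hQH : Q ≤ 2 * H + 1)
    (b : ι → ℤ) : ((2 * H + 1 : ℝ) / Q - 1) ^ (Fintype.card ι) ≤
    (Nat.card {c : ι → ℤ // (∀ i, |c i| ≤ H) ∧ ∀ i, (Q : ℤ) ∣ c i - b i} : ℝ) := by
  classical
  have h1 : Nat.card {c : ι → ℤ // (∀ i, |c i| ≤ H) ∧ ∀ i, (Q : ℤ) ∣ c i - b i} =
      ∏ i, Nat.card {t : ℤ // |t| ≤ H ∧ (Q : ℤ) ∣ t - b i} := by
    rw [← Nat.card_pi]
    refine Nat.card_congr (Equiv.trans (Equiv.subtypeEquivRight fun c => ?_)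
      (Equiv.subtypePiEquivPi (p := fun i (t : ℤ) => |t| ≤ (H : ℤ) ∧ (Q : ℤ) ∣ t - b i)))
    exact forall_and.symm
  rw [h1]
  push_cast
  have h2 : (0 : ℝ) ≤ (2 * H + 1 : ℝ) / Q - 1 := by
    have hQ0 : (0 : ℝ) < Q := by exact_mod_cast hQ
    rw [sub_nonneg, le_div_iff₀ hQ0, one_mul]
    exact_mod_cast hQH
  calc ((2 * H + 1 : ℝ) / Q - 1) ^ (Fintype.card ι) = ∏ _i : ι, ((2 * H + 1 : ℝ) / Q - 1) := by
        rw [Finset.prod_const, Finset.card_univ]
    _ ≤ _ := Finset.prod_le_prod (fun _ _ => h2) fun i _ => card_class H Q hQ (b i)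

end Pool.Agent.Q272.OD
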